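import Pool.Agent.Q74.BH.Stm

/-!
# Project BH of helper74: lemma job Bits (words of letters and parity words)
-/

set_option autoImplicit false

namespace Pool.Agent.Q285.BH

open Finset
open Pool.Agent.TH930.EBQ (ones words cw mem_words ones_append cw_append ones_cons_true
  ones_cons_false cw_cons_true cw_cons_false ones_nil cw_nil)
open Pool.Agent.H320R2.PD (FWT FW Wo mem_FW)
open Pool.Agent.Q74.BH

/-- the parity word of a word of letters (the last letter is the first step) -/
def pw : List ℕ → List Bool
  | [] => []
  | e :: w => pw w ++ (true :: List.replicate (e - 1) false)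

theorem ones_rep (n : ℕ) : ones (List.replicate n false) = 0 := by
  simp [ones, List.count_replicate]

theorem cw_rep (n : ℕ) : cw (List.replicate n false) = 0 := by
  induction n with
  | zero => rfl
  | succ n ih => rw [List.replicate_succ, cw_cons_false, ih]

theorem length_bits : ∀ w : List ℕ, (∀ e ∈ w, 1 ≤ e) → (pw w).length = w.sum
  | [], _ => rfl
  | e :: w, h => by
    have h1 : 1 ≤ e := h e (by simp)
    have h2 := length_bits w (fun x hx => h x (by simp [hx]))
    simp only [pw, List.length_append, List.length_cons, List.length_replicate, List.sum_cons, h2]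
    omega

theorem ones_bits : ∀ w : List ℕ, ones (pw w) = w.length
  | [] => rfl
  | e :: w => by
    rw [pw, ones_append, ones_bits w, ones_cons_true, ones_rep, List.length_cons]

theorem cw_bits : ∀ w : List ℕ, (∀ e ∈ w, 1 ≤ e) → cw (pw w) = Wo w
  | [], _ => rfl
  | e :: w, h => by
    have h2 := cw_bits w (fun x hx => h x (by simp [hx]))
    have h3 := length_bits w (fun x hx => h x (by simp [hx]))
    rw [pw, cw_append, h2, ones_cons_true, ones_rep, cw_cons_true, ones_rep, cw_rep, h3, Wo]
    ring

theorem rep_inj : ∀ (a b : ℕ) (l l' : List Bool),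
    List.replicate a false ++ true :: l = List.replicate b false ++ true :: l' → a = b ∧ l = l'
  | 0, 0, l, l', h => by simpa using h
  | 0, b + 1, l, l', h => by simp [List.replicate_succ] at h
  | a + 1, 0, l, l', h => by simp [List.replicate_succ] at h
  | a + 1, b + 1, l, l', h => by
    simp only [List.replicate_succ, List.cons_append, List.cons.injEq, true_and] at h
    obtain ⟨h1, h2⟩ := rep_inj a b l l' h
    exact ⟨by omega, h2⟩

theorem rev_bits (e : ℕ) (w : List ℕ) :
    (pw (e :: w)).reverse = List.replicate (e - 1) false ++ true :: (pw w).reverse := by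
  simp [pw]

theorem bits_inj : ∀ w w' : List ℕ, (∀ e ∈ w, 1 ≤ e) → (∀ e ∈ w', 1 ≤ e) →
    (pw w).reverse = (pw w').reverse → w = w'
  | [], [], _, _, _ => rfl
  | [], e :: w', _, _, h => by rw [rev_bits] at h; simp [pw] at h
  | e :: w, [], _, _, h => by rw [rev_bits] at h; simp [pw] at h
  | e :: w, e' :: w', h1, h2, h => by
    rw [rev_bits, rev_bits] at h
    obtain ⟨h3, h4⟩ := rep_inj _ _ _ _ h
    have h5 := h1 e (by simp)
    have h6 := h2 e' (by simp)
    have h7 := bits_inj w w' (fun x hx => h1 x (by simp [hx])) (fun x hx => h2 x (by simp [hx])) h4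
    rw [h7, show e = e' by omega]

theorem bits_surj : ∀ L : List Bool, (L = [] ∨ ∃ L', L = L' ++ [true]) →
    ∃ w : List ℕ, (∀ e ∈ w, 1 ≤ e) ∧ (pw w).reverse = L
  | [], _ => ⟨[], by simp, rfl⟩
  | true :: L, h => by
    have h1 : L = [] ∨ ∃ L', L = L' ++ [true] := by
      rcases h with h | ⟨L', h⟩
      · simp at h
      · cases L' with
        | nil => left; simpa using h
        | cons b L' =>
          right
          simp only [List.cons_append, List.cons.injEq] at h
          exact ⟨L', h.2⟩
    obtain ⟨w, hw, hL⟩ := bits_surj L h1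
    refine ⟨1 :: w, ?_, ?_⟩
    · intro e he
      rcases List.mem_cons.1 he with rfl | he
      · exact le_rfl
      · exact hw e he
    · rw [rev_bits, hL]; rfl
  | false :: L, h => by
    have h1 : ∃ L', L = L' ++ [true] := by
      rcases h with h | ⟨L', h⟩
      · simp at h
      · cases L' with
        | nil => simp at h
        | cons b L' =>
          simp only [List.cons_append, List.cons.injEq] at h
          exact ⟨L', h.2⟩
    obtain ⟨w, hw, hL⟩ := bits_surj L (Or.inr h1)
    cases w with
    | nil =>
      obtain ⟨L', rfl⟩ := h1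
      simp [pw] at hL
    | cons e w =>
      refine ⟨(e + 1) :: w, ?_, ?_⟩
      · intro x hx
        rcases List.mem_cons.1 hx with rfl | hx
        · omega
        · exact hw x (by simp [hx])
      · have he := hw e (by simp)
        rw [rev_bits] at hL ⊢
        rw [← hL, show e + 1 - 1 = (e - 1) + 1 by omega, List.replicate_succ]
        rfl

theorem bits_cons {w : List ℕ} (hw : w ≠ []) : ∃ v, pw w = true :: v := by
  induction w with
  | nil => exact absurd rfl hw
  | cons e w ih =>
    rcases eq_or_ne w [] with rfl | h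
    · exact ⟨_, rfl⟩
    · obtain ⟨v, hv⟩ := ih h
      refine ⟨v ++ (true :: List.replicate (e - 1) false), ?_⟩
      rw [pw, hv]
      rfl

theorem le_sum {w : List ℕ} {e : ℕ} (h : e ∈ w) : e ≤ w.sum := List.le_sum_of_mem h

/-- JOB Bits -/
theorem bits : S_Bits := by
  classical
  intro A k t ht hA f
  have hmem : ∀ w ∈ FWT A k t, (∀ e ∈ w, 1 ≤ e) ∧ w.length = k ∧ w.sum = t ∧
      pw w = true :: (pw w).tail := by
    intro w hw
    unfold FWT at hw
    rw [mem_filter, mem_FW] at hw
    obtain ⟨⟨h1, h2⟩, h3⟩ := hw
    have h4 : w ≠ [] := by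
      rintro rfl
      simp at h3
      omega
    obtain ⟨v, hv⟩ := bits_cons h4
    exact ⟨fun e he => (h2 e he).1, h1, h3, by rw [hv]; rfl⟩
  refine Finset.sum_bij (fun w _ => (pw w).tail) ?_ ?_ ?_ ?_
  · intro w hw
    obtain ⟨h1, h2, h3, h4⟩ := hmem w hw
    rw [mem_filter, mem_words, List.length_tail, length_bits w h1, h3]
    refine ⟨rfl, ?_⟩
    have h5 := ones_bits w
    rw [h4, ones_cons_true] at h5
    rw [h5, h2]
  · intro w hw w' hw' h
    obtain ⟨h1, -, -, h4⟩ := hmem w hw
    obtain ⟨h1', -, -, h4'⟩ := hmem w' hw'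
    have h5 : pw w = pw w' := by
      rw [h4, h4']
      exact congrArg (List.cons true) h
    exact bits_inj w w' h1 h1' (by rw [h5])
  · intro v hv
    rw [mem_filter, mem_words] at hv
    obtain ⟨w, hw, hL⟩ := bits_surj (true :: v).reverse (Or.inr ⟨v.reverse, by simp⟩)
    have hb : pw w = true :: v := List.reverse_injective hL
    have hs : w.sum = t := by
      rw [← length_bits w hw, hb, List.length_cons, hv.1]
      omega
    have hl : w.length = k := by
      rw [← ones_bits w, hb, ones_cons_true, hv.2]
    refine ⟨w, ?_, ?_⟩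
    · unfold FWT
      rw [mem_filter, mem_FW]
      exact ⟨⟨hl, fun e he => ⟨hw e he, (le_sum he).trans (hs.le.trans hA)⟩⟩, hs⟩
    · show (pw w).tail = v
      rw [hb]
      rfl
  · intro w hw
    obtain ⟨h1, -, -, h4⟩ := hmem w hw
    rw [← h4, cw_bits w h1]

end Pool.Agent.Q285.BH
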