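import Pool.Agent.Q74.BH.Stm
import Pool.Agent.Q74.SF.Two

/-!
# Project BH of helper74: lemma job Inner (averages over shifts)
-/

set_option autoImplicit false

namespace Pool.Agent.Q285.BH

open Finset
open Pool.Agent.Q74.KP
open Pool.Agent.Q74.SF
open Pool.Agent.Q74.AR (oc bE Td ocd)
open Pool.Agent.Q158.Pair (T)
open Pool.Agent.Q74.BH

theorem T_sh (t : ℕ) (x j : ℤ) : T^[t] (x + 2 ^ t * j) = T^[t] x + 3 ^ oc t x * j := by
  have h := Pool.Agent.Q74.AR.Td_iter (d := 1) (by norm_num) t x j
  rwa [Td_one, one_mul, one_mul] at h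

/-- only the coincidences matter -/
theorem pat_congr {k : ℕ} {α β : Type} (π : Fin k → Fin k) {v : Fin k → α} {w : Fin k → β}
    (h : ∀ i j, v i = v j ↔ w i = w j) : pat π v = pat π w := by
  unfold pat
  have e : (∀ i j, v i = v j ↔ π i = π j) ↔ (∀ i j, w i = w j ↔ π i = π j) :=
    forall_congr' fun i => forall_congr' fun j => by rw [h i j]
  by_cases hp : ∀ i j, v i = v j ↔ π i = π j
  · rw [if_pos hp, if_pos (e.1 hp)]
  · rw [if_neg hp, if_neg (fun h' => hp (e.2 h'))]

/-- translation invariance of the coalescing walkers -/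
theorem CG_tr {k : ℕ} (F : (Fin k → ℤ) → ℝ) (c : ℤ) (t : ℕ) : ∀ a : Fin k → ℤ,
    CG F t (fun i => a i + c) = CG (fun z => F (fun i => z i + c)) t a := by
  induction t with
  | zero => intro a; rfl
  | succ t ih =>
    intro a
    rw [CG_succ, CG_succ]
    have himg : univ.image (fun i => a i + c) = (univ.image a).image (fun x => x + c) := by
      rw [image_image]; rfl
    have hinj : Function.Injective (fun x : ℤ => x + c) := fun x y h => by simpa using h
    rw [himg, card_image_of_injective _ hinj]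
    congr 1
    symm
    refine Finset.sum_bij (fun B _ => B.image (fun x => x + c)) ?_ ?_ ?_ ?_
    · intro B hB
      rw [mem_powerset] at hB ⊢
      exact image_subset_image hB
    · intro B _ B' _ h
      exact Finset.image_injective hinj h
    · intro B hB
      rw [mem_powerset] at hB
      obtain ⟨B', hB', rfl⟩ := Finset.subset_image_iff.1 hB
      exact ⟨B', by rw [mem_powerset]; exact_mod_cast hB', rfl⟩
    · intro B _
      rw [← ih]
      congr 1
      funext i
      have e : (a i + c ∈ B.image (fun x => x + c)) ↔ a i ∈ B := by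
        rw [mem_image]
        constructor
        · rintro ⟨x, hx, h⟩
          rwa [hinj h] at hx
        · intro h
          exact ⟨a i, h, rfl⟩
      simp only [e]
      ring

/-- JOB Inner, from `S_Fix` only (with `Q = 1`: the average over a period is exact) -/
theorem inner0 (hF : S_Fix) : S_Inner := by
  intro k Λ ε hΛ hε
  obtain ⟨ρ, hρ, t₀, H⟩ := hF k Λ ε hΛ hε
  refine ⟨ρ, hρ, t₀, 1, le_rfl, ?_⟩
  intro r hr o z hoff o₀ ho u hu π G hG hL
  obtain ⟨a, ha⟩ : ∃ a : Fin k → ℕ, a = fun i => o i - o₀ := ⟨_, rfl⟩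
  have hai : ∀ i, a i = o i - o₀ := fun i => by rw [ha]
  have haz : ∀ i, (o i : ℤ) = a i + o₀ := fun i => by
    have h1 := ho i
    rw [hai]
    omega
  have har : ∀ i, (o i : ℝ) = a i + o₀ := fun i => by exact_mod_cast haz i
  have hoffa : Off ρ r a z := by
    obtain ⟨h1, h2⟩ := hoff
    refine ⟨fun i j => ?_, fun i j hij => ?_⟩
    · have h3 := h1 i j
      rw [har i, har j] at h3
      have e : ((a j : ℝ) + o₀ - (a i + o₀)) = (a j : ℝ) - a i := by ring
      rwa [e] at h3
    · have h3 := h2 i j (by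
        have e1 := hai i
        have e2 := hai j
        have e3 := ho i
        have e4 := ho j
        omega)
      have e : o j - o i = a j - a i := by
        have e1 := hai i
        have e2 := hai j
        have e3 := ho i
        have e4 := ho j
        omega
      rwa [e] at h3
  -- the function of one variable
  obtain ⟨F, hFd⟩ : ∃ F : ℤ → ℝ, F = fun n => Ph π G (fut r o (fun i => z i + 3 ^ a i * n)) := ⟨_, rfl⟩
  have hper : Pe r F := by
    intro n j
    rw [hFd]
    show Ph π G (fut r o (fun i => z i + 3 ^ a i * (n + 2 ^ r * j))) =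
      Ph π G (fut r o (fun i => z i + 3 ^ a i * n))
    have e1 : ∀ i, z i + 3 ^ a i * (n + 2 ^ r * j) = (z i + 3 ^ a i * n) + 2 ^ r * (3 ^ a i * j) :=
      fun i => by ring
    have e2 : ∀ i, oc r (z i + 3 ^ a i * (n + 2 ^ r * j)) = oc r (z i + 3 ^ a i * n) := fun i => by
      rw [e1, Pool.Agent.Q74.AR.oc_per]
    have e3 : ∀ i, T^[r] (z i + 3 ^ a i * (n + 2 ^ r * j)) =
        T^[r] (z i + 3 ^ a i * n) + 3 ^ (oc r (z i + 3 ^ a i * n) + a i) * j := fun i => by
      rw [e1, T_sh]
      ring
    unfold Ph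
    congr 1
    · apply pat_congr
      intro i l
      show (((o i : ℤ) + oc r (z i + 3 ^ a i * (n + 2 ^ r * j)), T^[r] (z i + 3 ^ a i * (n + 2 ^ r * j))) : ℤ × ℤ) =
          ((o l : ℤ) + oc r (z l + 3 ^ a l * (n + 2 ^ r * j)), T^[r] (z l + 3 ^ a l * (n + 2 ^ r * j))) ↔
        (((o i : ℤ) + oc r (z i + 3 ^ a i * n), T^[r] (z i + 3 ^ a i * n)) : ℤ × ℤ) =
          ((o l : ℤ) + oc r (z l + 3 ^ a l * n), T^[r] (z l + 3 ^ a l * n))
      rw [e2, e2, e3, e3, Prod.mk.injEq, Prod.mk.injEq]
      constructor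
      · rintro ⟨h1, h2⟩
        refine ⟨h1, ?_⟩
        rw [haz, haz] at h1
        have h3 : oc r (z i + 3 ^ a i * n) + a i = oc r (z l + 3 ^ a l * n) + a l := by omega
        rw [h3] at h2
        linarith
      · rintro ⟨h1, h2⟩
        refine ⟨h1, ?_⟩
        rw [haz, haz] at h1
        have h3 : oc r (z i + 3 ^ a i * n) + a i = oc r (z l + 3 ^ a l * n) + a l := by omega
        rw [h3, h2]
    · congr 1
      funext i
      show (o i : ℤ) + oc r (z i + 3 ^ a i * (n + 2 ^ r * j)) = (o i : ℤ) + oc r (z i + 3 ^ a i * n)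
      rw [e2]
  have hsum : (∑ w ∈ range (1 * 2 ^ r),
      Ph π G (fut r o (fun i => z i + 3 ^ (o i - o₀) * ((u * w : ℕ) : ℤ)))) / ((1 : ℕ) * 2 ^ r : ℝ) =
      EE r F := by
    have h1 := EE_aff hper (u : ℤ) (by omega) 0
    rw [← h1]
    unfold EE
    rw [one_mul, Nat.cast_one, one_mul]
    congr 1
    refine sum_congr rfl fun w _ => ?_
    rw [hFd]
    simp only [hai, Nat.cast_mul, add_zero]
  have hEE : EE r F = EE r (fun n => pat π (Vv a z r n) * G (fun i => Lv a z r n i + o₀)) := by
    congr 1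
    funext n
    rw [hFd]
    show pat π (fut r o (fun i => z i + 3 ^ a i * n)) *
      G (fun i => ((o i : ℤ) + oc r (z i + 3 ^ a i * n))) = _
    have hy : ∀ i, z i + 3 ^ a i * n = yy a z i n := fun i => by unfold yy; ring
    congr 1
    · apply pat_congr
      intro i l
      show (((o i : ℤ) + oc r (z i + 3 ^ a i * n), T^[r] (z i + 3 ^ a i * n)) : ℤ × ℤ) =
          ((o l : ℤ) + oc r (z l + 3 ^ a l * n), T^[r] (z l + 3 ^ a l * n)) ↔
        (((a i : ℤ) + oc r (yy a z i n), T^[r] (yy a z i n)) : ℤ × ℤ) =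
          ((a l : ℤ) + oc r (yy a z l n), T^[r] (yy a z l n))
      rw [Prod.mk.injEq, Prod.mk.injEq, hy, hy, haz, haz]
      constructor
      · rintro ⟨h1, h2⟩; exact ⟨by omega, h2⟩
      · rintro ⟨h1, h2⟩; exact ⟨by omega, h2⟩
    · congr 1
      funext i
      show (o i : ℤ) + oc r (z i + 3 ^ a i * n) = (a i : ℤ) + oc r (yy a z i n) + o₀
      rw [hy, haz]
      ring
  have hCG : CG (Fm π G) r (fun i => (o i : ℤ)) =
      CG (fun z => pat π z * G (fun i => z i + o₀)) r (fun i => (a i : ℤ)) := by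
    have h1 : (fun i => (o i : ℤ)) = fun i => (a i : ℤ) + (o₀ : ℤ) := funext haz
    rw [h1, CG_tr]
    congr 1
    funext z
    unfold Fm
    congr 1
    apply pat_congr
    intro i l
    constructor
    · intro h; linarith
    · intro h; rw [h]
  have hmain := H r hr a z hoffa π (fun z => G (fun i => z i + o₀)) (fun z => hG _) (fun z w => by
    refine (hL _ _).trans (le_of_eq ?_)
    congr 1
    refine sum_congr rfl fun i _ => ?_
    push_cast
    congr 1
    ring)
  rw [hsum, hEE, hCG]
  exact hmain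

/-- JOB Inner -/
theorem inner (hF : S_Fix) (_hV : S_Conv) : S_Inner := inner0 hF

end Pool.Agent.Q285.BH
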